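import Mathlib

set_option autoImplicit false

namespace Pool.Agent.Results.MP_49f1ce_an.Counter

open Filter Topology Set

/-- The identification (x, s + r x) ~ (T x, s) on X × R whose quotient is the suspension. -/
def Rel {X : Type} (T : X → X) (r : X → ℝ) (p q : X × ℝ) : Prop :=
  q.1 = T p.1 ∧ p.2 = q.2 + r p.1

/-- Topological mixing of the flow [x, s] ↦ [x, s + t] on the suspension. -/
def Mixing {X : Type} [TopologicalSpace X] (T : X → X) (r : X → ℝ) : Prop :=
  ∀ U V : Set (Quot (Rel T r)), IsOpen U → IsOpen V → U.Nonempty → V.Nonempty →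
    ∃ t0 : ℝ, ∀ t ≥ t0, ∃ p : X × ℝ, Quot.mk _ p ∈ U ∧ Quot.mk _ (p.1, p.2 + t) ∈ V

def P : ℕ → ℤ → Prop
  | 0, n => n = 0
  | k + 1, n => P k n ∨ P k (n - 10 ^ k)

lemma P_bd : ∀ k n, P k n → 0 ≤ n ∧ 9 * n < 10 ^ k
  | 0, n, h => by simp [show n = 0 from h]
  | k + 1, n, h => by
    have : (0 : ℤ) < 10 ^ k := by positivity
    rcases h with h | h <;> have := P_bd k _ h <;> rw [pow_succ] <;> omega

lemma P_gap (j : ℕ) : ∀ k n m, P k n → P k m → ¬ (2 * 10 ^ j ≤ n - m ∧ n - m ≤ 8 * 10 ^ j)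
  | 0, n, m, h, h' => by
    have : (0 : ℤ) < 10 ^ j := by positivity
    rw [show n = 0 from h, show m = 0 from h']; omega
  | k + 1, n, m, h, h' => by
    have : (0 : ℤ) < 10 ^ j := by positivity
    rcases h with h | h <;> rcases h' with h' | h'
    · exact P_gap j k _ _ h h'
    · have := P_bd k _ h; have := P_bd k _ h'; omega
    · have := P_bd k _ h; have := P_bd k _ h'
      rcases le_or_gt k j with c | c
      · have : (10 : ℤ) ^ k ≤ 10 ^ j := pow_le_pow_right₀ (by norm_num) c
        omega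
      · have : (10 : ℤ) ^ (j + 1) ≤ 10 ^ k := pow_le_pow_right₀ (by norm_num) c
        rw [pow_succ] at this
        omega
    · have := P_gap j k _ _ h h'
      omega

lemma P_mono {k l : ℕ} (h : k ≤ l) {n : ℤ} (hn : P k n) : P l n := by
  induction h with
  | refl => exact hn
  | step _ ih => exact Or.inl ih

lemma P_down (k : ℕ) : ∀ l n, P l n → n < 10 ^ k → P k n
  | 0, n, h, _ => P_mono (Nat.zero_le k) h
  | l + 1, n, h, h2 => by
    rcases le_or_gt (l + 1) k with c | c
    · exact P_mono c h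
    rcases h with h | h
    · exact P_down k l n h h2
    · have := (P_bd _ _ h).1
      have : (10 : ℤ) ^ k ≤ 10 ^ l := pow_le_pow_right₀ (by norm_num) (by omega)
      omega

open Classical in
noncomputable def z (n : ℤ) : Bool := decide (∃ k, P k n)

lemma z_iff (n : ℤ) : z n = true ↔ ∃ k, P k n := by simp [z]

lemma z_rec (n : ℤ) : ∀ᶠ k : ℕ in atTop, z (n + 10 ^ k) = z n := by
  filter_upwards [eventually_ge_atTop (2 * n.natAbs)] with k hk
  have h1 : (k : ℤ) < 10 ^ k := by exact_mod_cast Nat.lt_pow_self (by norm_num)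
  rw [Bool.eq_iff_iff, z_iff, z_iff]
  constructor
  · rintro ⟨l, hl⟩
    rcases P_down (k + 1) l _ hl (by rw [pow_succ]; omega) with h | h
    · have := P_bd _ _ h; omega
    · exact ⟨k, by simpa using h⟩
  · rintro ⟨l, hl⟩
    exact ⟨k + 1, Or.inr (by simpa using P_down k l _ hl (by omega))⟩

def sh (k : ℤ) (x : ℤ → Bool) : ℤ → Bool := fun i => x (i + k)

lemma op (i : ℤ) (b : Bool) : IsOpen {y : ℤ → Bool | y i = b} :=
  (isOpen_discrete ({b} : Set Bool)).preimage (continuous_apply (A := fun _ => Bool) i)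

lemma sh_cont (k : ℤ) : Continuous (sh k) := continuous_pi fun _ => continuous_apply _

def X : Set (ℤ → Bool) := closure (range fun k => sh k z)

lemma sh_mem (k : ℤ) {x : ℤ → Bool} (hx : x ∈ X) : sh k x ∈ X :=
  map_mem_closure (sh_cont k) hx (by
    rintro _ ⟨l, rfl⟩; exact ⟨k + l, by funext i; simp [sh, add_assoc]⟩)

def T (x : X) : X := ⟨sh 1 x.1, sh_mem 1 x.2⟩

lemma T_it (n : ℕ) (x : X) : (T^[n] x).1 = sh n x.1 := by
  induction n with
  | zero => funext i; simp [sh]
  | succ n ih =>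
    rw [Function.iterate_succ_apply']
    change sh 1 (T^[n] x).1 = _
    rw [ih]; funext i; simp only [sh]; congr 1; push_cast; ring

noncomputable def orb (k : ℤ) : X := ⟨sh k z, subset_closure ⟨k, rfl⟩⟩

lemma orb_dense {U : Set X} (hU : IsOpen U) (hn : U.Nonempty) : ∃ k, orb k ∈ U := by
  obtain ⟨O, hO, rfl⟩ := isOpen_induced_iff.1 hU
  obtain ⟨x, hx⟩ := hn
  obtain ⟨_, h, k, rfl⟩ := mem_closure_iff.1 x.2 O hO hx
  exact ⟨k, h⟩

lemma gap (x : X) (j : ℕ) (n m : ℤ) (hn : x.1 n = true) (hm : x.1 m = true) :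
    ¬ (2 * 10 ^ j ≤ n - m ∧ n - m ≤ 8 * 10 ^ j) := by
  have hc : ∀ n, IsOpen {y : X | y.1 n = true} := fun n =>
    (op n true).preimage continuous_subtype_val
  obtain ⟨k, h1, h2⟩ := orb_dense ((hc n).inter (hc m)) ⟨x, hn, hm⟩
  obtain ⟨a, ha⟩ := (z_iff _).1 h1
  obtain ⟨b, hb⟩ := (z_iff _).1 h2
  have := P_gap j _ _ _ (P_mono (le_max_left a b) ha) (P_mono (le_max_right a b) hb)
  omega

noncomputable def term (x : ℤ → Bool) (i : ℤ) : ℝ := if x i = true then 1 / (i.natAbs + 1) else 0

noncomputable def rho (x : ℤ → Bool) : ℝ := 1 + ⨆ i, term x i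

lemma term_le (x : ℤ → Bool) (i : ℤ) : term x i ≤ 1 / (i.natAbs + 1) := by
  unfold term; split_ifs
  · exact le_rfl
  · positivity

lemma term_one (x : ℤ → Bool) (i : ℤ) : term x i ≤ 1 := (term_le x i).trans (by
  rw [div_le_one (by positivity)]; simp)

lemma le_rho (x : ℤ → Bool) (i : ℤ) : 1 + term x i ≤ rho x :=
  add_le_add_right (le_ciSup ⟨1, by rintro _ ⟨i, rfl⟩; exact term_one x i⟩ i) 1

lemma rho_bd (x : ℤ → Bool) : 1 ≤ rho x ∧ rho x ≤ 2 := by
  have : 0 ≤ term x 0 := by unfold term; split_ifs <;> simp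
  have h2 := ciSup_le (term_one x)
  exact ⟨by linarith [le_rho x 0], by unfold rho; linarith⟩

lemma rho_cont : Continuous rho := by
  have key : ∀ (N : ℕ) x y, (∀ i ∈ Icc (-(N : ℤ)) N, x i = y i) → rho x ≤ rho y + 1 / (N + 1) := by
    intro N x y h
    have : ⨆ i, term x i ≤ rho y + 1 / (N + 1) - 1 := ciSup_le fun i => by
      have hp : (0 : ℝ) < 1 / (N + 1) := by positivity
      by_cases hi : i ∈ Icc (-(N : ℤ)) N
      · have : term x i = term y i := by simp [term, h i hi]
        linarith [le_rho y i]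
      · have : (1 : ℝ) / (i.natAbs + 1) ≤ 1 / (N + 1) := by
          have : N ≤ i.natAbs := by simp only [mem_Icc] at hi; omega
          gcongr
        linarith [term_le x i, (rho_bd y).1]
    unfold rho at this ⊢
    linarith
  refine continuous_iff_continuousAt.2 fun x => Metric.tendsto_nhds.2 fun e he => ?_
  obtain ⟨N, hN⟩ := exists_nat_one_div_lt he
  have : ∀ᶠ y in 𝓝 x, ∀ i ∈ Icc (-(N : ℤ)) N, y i = x i :=
    (eventually_all_finite (finite_Icc _ _)).2 fun i _ =>
      (op i (x i)).mem_nhds rfl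
  filter_upwards [this] with y hy
  rw [Real.dist_eq, abs_lt]
  constructor <;> linarith [key N y x hy, key N x y fun i hi => (hy i hi).symm]

noncomputable def S (n : ℤ) (x : ℤ → Bool) : ℝ :=
  ∑ i ∈ Finset.range n.toNat, rho (sh i x) - ∑ i ∈ Finset.range (-n).toNat, rho (sh (-(i + 1)) x)

lemma S_succ (n : ℤ) (x : ℤ → Bool) : S (n + 1) x = S n x + rho (sh n x) := by
  unfold S
  rcases le_or_gt 0 n with h | h
  · lift n to ℕ using h
    rw [show ((n : ℤ) + 1).toNat = n + 1 by omega, show (-((n : ℤ) + 1)).toNat = 0 by omega,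
      show (-(n : ℤ)).toNat = 0 by omega, Finset.sum_range_succ]
    simp
  · obtain ⟨m, rfl⟩ : ∃ m : ℕ, n = -(m + 1) := ⟨(-n - 1).toNat, by omega⟩
    rw [show (-((m : ℤ) + 1) + 1).toNat = 0 by omega, show (-((m : ℤ) + 1)).toNat = 0 by omega,
      show (-(-((m : ℤ) + 1) + 1)).toNat = m by omega,
      show (- -((m : ℤ) + 1)).toNat = m + 1 by omega, Finset.sum_range_succ]
    ring

lemma S_sh (n : ℤ) (x : ℤ → Bool) : S n (sh 1 x) = S (n + 1) x - rho x := by
  have e : ∀ n, sh n (sh 1 x) = sh (n + 1) x := fun n => by funext i; simp [sh, add_assoc]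
  induction n using Int.induction_on with
  | zero =>
    have : sh 0 x = x := by funext i; simp [sh]
    rw [S_succ, this]; simp [S]
  | succ n ih => rw [S_succ, ih, e, S_succ ((n : ℤ) + 1)]; ring
  | pred n ih =>
    have a := S_succ (-(n : ℤ) - 1) (sh 1 x)
    have b := S_succ (-(n : ℤ)) x
    rw [e] at a
    rw [sub_add_cancel] at a ⊢
    linarith

lemma S_bd (x : ℤ → Bool) (m n : ℤ) (h : m ≤ n) :
    (n - m : ℝ) ≤ S n x - S m x ∧ S n x - S m x ≤ 2 * (n - m) := by
  induction n, h using Int.leInduction with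
  | base => simp
  | succ n _ ih =>
    have := rho_bd (sh n x)
    rw [S_succ]; push_cast
    constructor <;> linarith [ih.1, ih.2, this.1, this.2]

lemma S_cont (n : ℤ) : Continuous (S n) :=
  (continuous_finsetSum _ fun _ _ => rho_cont.comp (sh_cont _)).sub
    (continuous_finsetSum _ fun _ _ => rho_cont.comp (sh_cont _))

def good (p : X × ℝ) : Prop :=
  ∃ n, p.1.1 n = true ∧ 0 < p.2 - S n p.1.1 ∧ p.2 - S n p.1.1 < 1 / 2

lemma not_mixing : ¬ Mixing T fun x : X => rho x.1 := by
  intro h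
  have hi : ∀ p q, Rel T (fun x : X => rho x.1) p q → good p = good q := by
    rintro ⟨x, s⟩ ⟨y, u⟩ ⟨h1, h2⟩
    simp only at h1 h2
    subst h1 h2
    refine propext ⟨fun ⟨n, a, b, c⟩ => ⟨n - 1, ?_⟩, fun ⟨n, a, b, c⟩ => ⟨n + 1, a, ?_⟩⟩
    · change x.1 (n - 1 + 1) = true ∧ 0 < u - S (n - 1) (sh 1 x.1) ∧ u - S (n - 1) (sh 1 x.1) < _
      rw [S_sh, sub_add_cancel]
      exact ⟨a, by simp only at b; linarith, by simp only at c; linarith⟩
    · change 0 < u - S n (sh 1 x.1) at b
      change u - S n (sh 1 x.1) < _ at c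
      rw [S_sh] at b c
      exact ⟨by simp only; linarith, by simp only; linarith⟩
  have ho : IsOpen {w | Quot.lift good hi w} := by
    rw [← isQuotientMap_quot_mk.isOpen_preimage]
    change IsOpen {p | good p}
    simp only [good, ofPred_exists]
    refine isOpen_iUnion fun n => ?_
    have c1 : Continuous fun p : X × ℝ => p.1.1 := continuous_subtype_val.comp continuous_fst
    have c2 : Continuous fun p : X × ℝ => p.2 - S n p.1.1 :=
      continuous_snd.sub ((S_cont n).comp c1)
    exact ((op n true).preimage c1).inter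
      ((isOpen_lt continuous_const c2).inter (isOpen_lt c2 continuous_const))
  have hn : {w | Quot.lift good hi w}.Nonempty :=
    ⟨Quot.mk _ (orb 0, 1 / 4), 0, (z_iff _).2 ⟨0, rfl⟩, by simp [S], by norm_num [S]⟩
  obtain ⟨t0, ht⟩ := h _ _ ho ho hn hn
  obtain ⟨k, hk⟩ := pow_unbounded_of_one_lt t0 (show (1 : ℝ) < 10 by norm_num)
  have h1 : (1 : ℝ) ≤ 10 ^ k := one_le_pow₀ (by norm_num)
  obtain ⟨⟨x, s⟩, ⟨m, a1, a2, a3⟩, ⟨n, b1, b2, b3⟩⟩ := ht (5 * 10 ^ k) (by linarith)
  simp only at a1 a2 a3 b1 b2 b3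
  rcases le_total m n with c | c
  · have := S_bd x.1 m n c
    refine gap x k n m b1 a1 ⟨?_, ?_⟩ <;> rify <;> linarith [this.1, this.2]
  · have := S_bd x.1 n m c
    have : (n : ℝ) ≤ m := by exact_mod_cast c
    linarith

/-- A transitive shift space with one periodic point and a roof function whose suspension flow is
not mixing and which is not cohomologous to any locally constant function. -/
theorem result : ∃ (X : Set (ℤ → Bool)) (T : X → X) (r : X → ℝ),
    IsClosed X ∧ X.Nonempty ∧ (∀ x i, (T x).1 i = x.1 (i + 1)) ∧ Function.Surjective T ∧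
    (∀ U V : Set X, IsOpen U → IsOpen V → U.Nonempty → V.Nonempty →
      ∃ n ≥ 1, ∃ x ∈ U, T^[n] x ∈ V) ∧
    {x | ∃ n ≥ 1, T^[n] x = x}.Finite ∧ Continuous r ∧ (∀ x, 0 < r x) ∧ ¬ Mixing T r ∧
    ∀ (g h : X → ℝ) (N : ℕ), Continuous h →
      (∀ x y : X, (∀ i : ℤ, |i| ≤ N → x.1 i = y.1 i) → g x = g y) →
      ¬ ∀ x, r x - g x = h (T x) - h x := by
  refine ⟨X, T, fun x => rho x.1, isClosed_closure, ⟨_, (orb 0).2⟩, fun _ _ => rfl,
    fun x => ⟨⟨sh (-1) x.1, sh_mem _ x.2⟩, Subtype.ext (by funext i; simp [T, sh])⟩,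
    fun U V hU hV nU nV => ?_, ?_, rho_cont.comp continuous_subtype_val,
    fun x => by linarith [(rho_bd x.1).1], not_mixing, fun g h N hh hg hc => ?_⟩
  · obtain ⟨a, ha⟩ := orb_dense hU nU
    obtain ⟨b, hb⟩ := orb_dense hV nV
    have ht : Tendsto (fun k : ℕ => orb (b + 10 ^ k)) atTop (𝓝 (orb b)) := by
      rw [tendsto_subtype_rng, tendsto_pi_nhds]
      intro i
      refine tendsto_const_nhds.congr' ?_
      filter_upwards [z_rec (i + b)] with k hk
      simp only [orb, sh, ← add_assoc, hk]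
    obtain ⟨k, h1, h2⟩ := ((ht.eventually (hV.mem_nhds hb)).and
      (eventually_ge_atTop (a - b).natAbs)).exists
    have h3 : (k : ℤ) < 10 ^ k := by exact_mod_cast Nat.lt_pow_self (by norm_num)
    refine ⟨(b + 10 ^ k - a).toNat, by omega, orb a, ha, ?_⟩
    convert! h1
    refine Subtype.ext ?_
    rw [T_it]; funext i; simp only [orb, sh]; congr 1; omega
  · refine Set.Subsingleton.finite ?_
    have : ∀ x : X, (∃ n ≥ 1, T^[n] x = x) → x.1 = fun _ => false := by
      rintro x ⟨p, hp, hx⟩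
      funext n
      by_contra hn
      have hn : x.1 n = true := by simpa using hn
      set t := 2 * 10 ^ p / p + 1 with ht
      have h1 : T^[p * t] x = x := by rw [Function.iterate_mul]; exact Function.iterate_fixed hx t
      have h2 := congrFun (T_it (p * t) x) n
      rw [h1, hn] at h2
      have h3 : p < 10 ^ p := Nat.lt_pow_self (by norm_num)
      have h4 := Nat.div_add_mod (2 * 10 ^ p) p
      have h5 := Nat.mod_lt (2 * 10 ^ p) hp
      have h6 : 2 * 10 ^ p ≤ p * t ∧ p * t ≤ 8 * 10 ^ p := by rw [ht, mul_add]; omega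
      refine gap x p _ n h2.symm hn ?_
      rw [add_sub_cancel_left]
      exact_mod_cast h6
    exact fun x hx y hy => Subtype.ext ((this x hx).trans (this y hy).symm)
  · have zneg : ∀ n < 0, z n = false := fun n hn => by
      by_contra h
      obtain ⟨k, hk⟩ := (z_iff n).1 (by simpa using h)
      have := P_bd _ _ hk; omega
    have h0 : (fun _ => false) ∈ X := by
      refine mem_closure_of_tendsto (f := fun k : ℕ => sh (-k) z) (b := atTop) ?_
        (Eventually.of_forall fun k => ⟨_, rfl⟩)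
      refine tendsto_pi_nhds.2 fun i => tendsto_const_nhds.congr' ?_
      filter_upwards [eventually_gt_atTop i.natAbs] with k hk
      exact (zneg _ (by omega)).symm
    have g0 : g ⟨_, h0⟩ = 1 := by
      have := hc ⟨_, h0⟩
      rw [show T ⟨_, h0⟩ = ⟨_, h0⟩ from rfl] at this
      simp [rho, term] at this
      linarith
    have : CompactSpace X := isCompact_iff_compactSpace.1 isClosed_closure.isCompact
    obtain ⟨C, hC⟩ := isCompact_univ.exists_bound_of_continuousOn hh.continuousOn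
    have key : ∀ D : ℕ, ∑ i ∈ Finset.range D, (1 : ℝ) / (i + (N + 2) : ℕ) ≤
        h (orb (-N)) - h (orb (-(N + D : ℕ))) := by
      intro D
      induction D with
      | zero => simp
      | succ D ih =>
        have a := hc (orb (-(N + (D + 1) : ℕ)))
        rw [hg _ ⟨_, h0⟩ fun i hi => zneg _ (by rw [abs_le] at hi; omega), g0,
          show T (orb (-(N + (D + 1) : ℕ))) = orb (-(N + D : ℕ)) from Subtype.ext (by
            funext i; simp only [T, orb, sh]; congr 1; push_cast; ring)] at a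
        have b := le_rho (orb (-(N + (D + 1) : ℕ))).1 (N + (D + 1) : ℕ)
        rw [term, if_pos (show (orb (-(N + (D + 1) : ℕ))).1 (N + (D + 1) : ℕ) = true from
          (z_iff _).2 ⟨0, add_neg_cancel _⟩), Int.natAbs_natCast] at b
        rw [Finset.sum_range_succ]
        have e : ((D + (N + 2) : ℕ) : ℝ) = (N + (D + 1) : ℕ) + 1 := by push_cast; ring
        rw [e]; linarith
    refine Real.not_summable_one_div_natCast ((summable_nat_add_iff (N + 2)).1
      (summable_of_sum_range_le (c := 2 * C) (fun _ => by positivity) fun D => (key D).trans ?_))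
    have a := hC (orb (-N)) trivial
    have b := hC (orb (-(N + D : ℕ))) trivial
    rw [Real.norm_eq_abs, abs_le] at a b
    linarith [a.2, b.1]

end Pool.Agent.Results.MP_49f1ce_an.Counter
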